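import Mathlib

/-! # Elementary groups over a ring with a divisible `x`-adic quotient -/

namespace Pool.Agent.Q322.RF

open Matrix

variable {R : Type*} [CommRing R]

/-- invertible three by three matrices -/
abbrev GL3 (R : Type*) [CommRing R] := (Matrix (Fin 3) (Fin 3) R)ˣ

/-- elementary matrices -/
def el {i j : Fin 3} (h : i ≠ j) (r : R) : GL3 R where
  val := 1 + single i j r
  inv := 1 + single i j (-r)
  val_inv := by
    rw [add_mul, mul_add, mul_add, single_mul_single_of_ne _ _ _ _ h.symm]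
    rw [mul_one, mul_one, one_mul, add_zero, add_assoc, ← single_add, neg_add_cancel, single_zero,
      add_zero]
  inv_val := by
    rw [add_mul, mul_add, mul_add, single_mul_single_of_ne _ _ _ _ h.symm]
    rw [mul_one, mul_one, one_mul, add_zero, add_assoc, ← single_add, add_neg_cancel, single_zero,
      add_zero]

theorem el_val {i j : Fin 3} (h : i ≠ j) (r : R) :
    ((el h r : GL3 R) : Matrix (Fin 3) (Fin 3) R) = 1 + single i j r := rfl

theorem el_zero {i j : Fin 3} (h : i ≠ j) : el h (0 : R) = 1 := by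
  refine Units.ext ?_
  rw [el_val, single_zero, add_zero, Units.val_one]

theorem el_add {i j : Fin 3} (h : i ≠ j) (r s : R) : el h (r + s) = el h r * el h s := by
  refine Units.ext ?_
  rw [Units.val_mul, el_val, el_val, el_val, add_mul, mul_add, mul_add,
    single_mul_single_of_ne _ _ _ _ h.symm, single_add]
  simp only [one_mul, mul_one, add_zero]
  abel

/-- the subgroup generated by the elementary matrices with entries in `x R` -/
def Elem (x : R) : Subgroup (GL3 R) :=
  Subgroup.closure {g | ∃ (i j : Fin 3) (h : i ≠ j) (r : R), g = el h (x * r)}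

theorem third {i j : Fin 3} (h : i ≠ j) : ∃ k, i ≠ k ∧ k ≠ j := by
  revert i j; decide

theorem comm_transvection {i j k : Fin 3} (hij : i ≠ j) (hik : i ≠ k) (hkj : k ≠ j) (a b : R) :
    el hij (a * b) =
      el hik a * el hkj b *
        (el hik a)⁻¹ * (el hkj b)⁻¹ := by
  rw [eq_mul_inv_iff_mul_eq, eq_mul_inv_iff_mul_eq]
  refine Units.ext ?_
  simp only [Units.val_mul, el_val]
  simp only [add_mul, mul_add, one_mul, mul_one]
  rw [single_mul_single_same, single_mul_single_of_ne _ _ _ _ hij.symm,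
    single_mul_single_of_ne _ _ _ _ hkj.symm]
  simp only [zero_mul, add_zero]
  rw [single_mul_single_of_ne _ _ _ _ hij.symm]
  abel

theorem pow_transvection {i j : Fin 3} (hij : i ≠ j) (a : R) (d : ℕ) :
    el hij ((d : R) * a) =
      (el hij a) ^ d := by
  induction d with
  | zero => simp [el_zero]
  | succ d ih =>
    rw [pow_succ, ← ih, ← el_add]
    congr 1
    push_cast; ring

theorem mem_Elem {x : R} {i j : Fin 3} (h : i ≠ j) (r : R) :
    el h (x * r) ∈ Elem x :=
  Subgroup.subset_closure ⟨i, j, h, r, rfl⟩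

/-- every homomorphism to a finite commutative group is trivial -/
theorem hom_trivial {x : R} (h1 : ∀ d : ℕ, 0 < d → ∃ u v : R, 1 = (d : R) * u + x * v)
    {A : Type*} [CommGroup A] [Finite A] (ψ : Elem x →* A) : ∀ g, ψ g = 1 := by
  have key : Elem x ≤ ψ.ker.map (Elem x).subtype := by
    refine (Subgroup.closure_le _).2 ?_
    rintro g ⟨i, j, hij, r, rfl⟩
    obtain ⟨k, hik, hkj⟩ := third hij
    obtain ⟨u, v, huv⟩ := h1 (Nat.card A) Nat.card_pos
    let a : Elem x := ⟨el hij (x * (r * u)), mem_Elem hij _⟩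
    let b : Elem x := ⟨el hik (x * 1), mem_Elem hik _⟩
    let c : Elem x := ⟨el hkj (x * (r * v)), mem_Elem hkj _⟩
    refine ⟨a ^ Nat.card A * (b * c * b⁻¹ * c⁻¹), ?_, ?_⟩
    · show ψ _ = 1
      simp only [map_mul, map_pow, map_inv, pow_card_eq_one', one_mul]
      rw [mul_comm (ψ b) (ψ c)]
      simp
    · show ((a ^ Nat.card A * (b * c * b⁻¹ * c⁻¹) : Elem x) : GL3 R) = _
      simp only [Subgroup.coe_mul, Subgroup.coe_pow, Subgroup.coe_inv, a, b, c]
      rw [← pow_transvection, ← comm_transvection hij, ← el_add]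
      congr 1
      calc (Nat.card A : R) * (x * (r * u)) + x * 1 * (x * (r * v))
          = x * r * ((Nat.card A : R) * u + x * v) := by ring
        _ = x * r := by rw [← huv, mul_one]
  intro g
  obtain ⟨y, hy, hyg⟩ := key g.2
  have : y = g := Subtype.ext hyg
  rw [← this]
  exact hy

/-- every finite soluble quotient is trivial -/
theorem quotient_trivial {x : R} (h1 : ∀ d : ℕ, 0 < d → ∃ u v : R, 1 = (d : R) * u + x * v)
    (N : Subgroup (Elem x)) [N.Normal] [Finite (Elem x ⧸ N)] [Group.IsSolvable (Elem x ⧸ N)] :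
    N = ⊤ := by
  by_contra hN
  have hnt : Nontrivial (Elem x ⧸ N) := by
    rw [QuotientGroup.nontrivial_iff]
    exact hN
  have hlt := Group.IsSolvable.commutator_lt_top_of_nontrivial (G := Elem x ⧸ N)
  have hA : ∀ a : Elem x ⧸ N, a ∈ commutator (Elem x ⧸ N) := by
    intro a
    obtain ⟨g, rfl⟩ := QuotientGroup.mk'_surjective N a
    have := hom_trivial h1 ((Abelianization.of (G := Elem x ⧸ N)).comp (QuotientGroup.mk' N)) g
    have h2 : QuotientGroup.mk' N g ∈ (Abelianization.of (G := Elem x ⧸ N)).ker := this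
    rwa [Abelianization.ker_of] at h2
  exact hlt.ne (Subgroup.eq_top_iff' _ |>.2 hA)

/-- the congruence subgroups -/
def Cong (x : R) (k : ℕ) : Subgroup (GL3 R) :=
  (Units.map ((Ideal.Quotient.mk (Ideal.span {x ^ k})).mapMatrix (m := Fin 3)).toMonoidHom).ker

theorem mem_Cong {x : R} {k : ℕ} {g : GL3 R} :
    g ∈ Cong x k ↔ ∃ B : Matrix (Fin 3) (Fin 3) R, (g : Matrix (Fin 3) (Fin 3) R) = 1 + x ^ k • B := by
  unfold Cong
  rw [MonoidHom.mem_ker]
  constructor
  · intro h
    have h2 : ∀ i j, x ^ k ∣ (g : Matrix (Fin 3) (Fin 3) R) i j - (1 : Matrix (Fin 3) (Fin 3) R) i j := by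
      intro i j
      have h3 : Ideal.Quotient.mk (Ideal.span {x ^ k}) ((g : Matrix (Fin 3) (Fin 3) R) i j) =
          (1 : Matrix (Fin 3) (Fin 3) (R ⧸ Ideal.span {x ^ k})) i j :=
        congrArg (fun A : GL3 (R ⧸ Ideal.span {x ^ k}) =>
        (A : Matrix (Fin 3) (Fin 3) (R ⧸ Ideal.span {x ^ k})) i j) h
      rw [← Ideal.mem_span_singleton, ← Ideal.Quotient.eq, h3]
      rw [Matrix.one_apply, Matrix.one_apply]
      split_ifs <;> simp
    choose B hB using h2
    refine ⟨Matrix.of B, ?_⟩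
    ext i j
    simp only [Matrix.add_apply, Matrix.smul_apply, Matrix.of_apply, smul_eq_mul]
    rw [← hB i j]; ring
  · rintro ⟨B, hB⟩
    refine Units.ext ?_
    ext i j
    show Ideal.Quotient.mk (Ideal.span {x ^ k}) ((g : Matrix (Fin 3) (Fin 3) R) i j) =
          (1 : Matrix (Fin 3) (Fin 3) (R ⧸ Ideal.span {x ^ k})) i j
    rw [hB]
    simp only [Matrix.add_apply, Matrix.smul_apply, smul_eq_mul, map_add, map_mul]
    have : Ideal.Quotient.mk (Ideal.span {x ^ k}) (x ^ k) = 0 :=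
      Ideal.Quotient.eq_zero_iff_mem.2 (Ideal.mem_span_singleton_self _)
    rw [this, zero_mul, add_zero, Matrix.one_apply, Matrix.one_apply]
    split_ifs <;> simp

theorem comm_Cong {x : R} {a b : ℕ} {g h : GL3 R} (hg : g ∈ Cong x a) (hh : h ∈ Cong x b) :
    g * h * g⁻¹ * h⁻¹ ∈ Cong x (a + b) := by
  obtain ⟨B, hB⟩ := mem_Cong.1 hg
  obtain ⟨C, hC⟩ := mem_Cong.1 hh
  rw [mem_Cong]
  refine ⟨(B * C - C * B) * (((g⁻¹ * h⁻¹ : GL3 R)) : Matrix (Fin 3) (Fin 3) R), ?_⟩
  have e1 : ((g * h : GL3 R) : Matrix (Fin 3) (Fin 3) R) =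
      ((h * g : GL3 R) : Matrix (Fin 3) (Fin 3) R) + x ^ (a + b) • (B * C - C * B) := by
    rw [Units.val_mul, Units.val_mul, hB, hC]
    ext i j
    simp only [add_mul, mul_add, one_mul, mul_one, smul_mul_assoc, mul_smul_comm,
      Matrix.add_apply, Matrix.sub_apply, Matrix.smul_apply, smul_eq_mul, pow_add]
    ring
  have e2 : ((g * h * g⁻¹ * h⁻¹ : GL3 R) : Matrix (Fin 3) (Fin 3) R) =
      ((g * h : GL3 R) : Matrix (Fin 3) (Fin 3) R) *
        ((g⁻¹ * h⁻¹ : GL3 R) : Matrix (Fin 3) (Fin 3) R) := by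
    rw [← Units.val_mul]
    congr 1
    group
  have e3 : ((h * g : GL3 R) : Matrix (Fin 3) (Fin 3) R) *
      ((g⁻¹ * h⁻¹ : GL3 R) : Matrix (Fin 3) (Fin 3) R) = 1 := by
    rw [← Units.val_mul]
    have : h * g * (g⁻¹ * h⁻¹) = 1 := by group
    rw [this]
    rfl
  rw [e2, e1, add_mul, e3, smul_mul_assoc]

theorem Elem_le {x : R} : Elem x ≤ Cong x 1 := by
  refine (Subgroup.closure_le _).2 ?_
  rintro g ⟨i, j, hij, r, rfl⟩
  rw [SetLike.mem_coe, mem_Cong]
  refine ⟨Matrix.single i j r, ?_⟩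
  rw [el_val, pow_one, Matrix.smul_single, smul_eq_mul]

instance (x : R) (k : ℕ) : (Cong x k).Normal := by unfold Cong; infer_instance

/-- quotients by terms of a descending central chain are nilpotent -/
theorem nilpotent_of_chain {Γ : Type*} [Group Γ] (H : ℕ → Subgroup Γ) [hn : ∀ n, (H n).Normal]
    (h0 : H 0 = ⊤) (hs : ∀ n, ∀ g ∈ H n, ∀ h, g * h * g⁻¹ * h⁻¹ ∈ H (n + 1)) (n : ℕ) :
    Group.IsNilpotent (Γ ⧸ H n) := by
  rw [Subgroup.nilpotent_iff_finite_descending_central_series]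
  refine ⟨n, fun i => (H i).map (QuotientGroup.mk' (H n)), ⟨?_, ?_⟩, ?_⟩
  · show (H 0).map (QuotientGroup.mk' (H n)) = ⊤
    rw [h0]
    exact Subgroup.map_top_of_surjective _ (QuotientGroup.mk'_surjective _)
  · rintro _ i ⟨y, hy, rfl⟩ h
    obtain ⟨z, rfl⟩ := QuotientGroup.mk'_surjective _ h
    exact ⟨y * z * y⁻¹ * z⁻¹, hs i y hy z, by simp [commutatorElement_def]⟩
  · rw [eq_bot_iff]
    rintro _ ⟨y, hy, rfl⟩
    rw [Subgroup.mem_bot]
    exact (QuotientGroup.eq_one_iff y).2 hy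

theorem residually_nilpotent {x : R} (h2 : ∀ r : R, (∀ k : ℕ, x ^ k ∣ r) → r = 0) (g : Elem x)
    (hg : g ≠ 1) : ∃ (N : Subgroup (Elem x)) (_ : N.Normal), g ∉ N ∧
      Group.IsNilpotent (Elem x ⧸ N) := by
  have hex : ∃ k, (g : GL3 R) ∉ Cong x (k + 1) := by
    by_contra hc
    push Not at hc
    refine hg (Subtype.ext (Units.ext ?_))
    ext i j
    have : ((g : GL3 R) : Matrix (Fin 3) (Fin 3) R) i j - (1 : Matrix (Fin 3) (Fin 3) R) i j = 0 := by
      refine h2 _ fun k => ?_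
      obtain ⟨B, hB⟩ := mem_Cong.1 (hc k)
      rw [hB]
      refine ⟨x * B i j, ?_⟩
      simp only [Matrix.add_apply, Matrix.smul_apply, smul_eq_mul]
      ring
    have h3 := sub_eq_zero.1 this
    simpa using h3
  obtain ⟨k, hk⟩ := hex
  let H : ℕ → Subgroup (Elem x) := fun n => (Cong x (n + 1)).subgroupOf (Elem x)
  have hHn : ∀ n, (H n).Normal := fun n => by
    show ((Cong x (n + 1)).subgroupOf (Elem x)).Normal
    infer_instance
  refine ⟨H k, hHn k, fun h => hk ?_, nilpotent_of_chain H ?_ ?_ k⟩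
  · exact Subgroup.mem_subgroupOf.1 h
  · rw [eq_top_iff]
    intro g _
    exact Subgroup.mem_subgroupOf.2 (Elem_le g.2)
  · intro n g hg h
    rw [Subgroup.mem_subgroupOf] at hg ⊢
    exact comm_Cong hg (Elem_le h.2)

theorem residually_finite {x : R} (h3 : ∀ r : R, r ≠ 0 → ∃ (F : Type) (_ : CommRing F)
    (_ : Finite F) (f : R →+* F), f r ≠ 0) (g : Elem x) (hg : g ≠ 1) :
    ∃ (N : Subgroup (Elem x)) (_ : N.Normal), g ∉ N ∧ Finite (Elem x ⧸ N) := by
  have hex : ∃ i j, ((g : GL3 R) : Matrix (Fin 3) (Fin 3) R) i j -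
      (1 : Matrix (Fin 3) (Fin 3) R) i j ≠ 0 := by
    by_contra hc
    push Not at hc
    refine hg (Subtype.ext (Units.ext ?_))
    ext i j
    have h3 := sub_eq_zero.1 (hc i j)
    simpa using h3
  obtain ⟨i, j, hij⟩ := hex
  obtain ⟨F, _, _, f, hf⟩ := h3 _ hij
  let φ : Elem x →* GL3 F :=
    (Units.map (f.mapMatrix (m := Fin 3)).toMonoidHom).comp (Elem x).subtype
  refine ⟨φ.ker, inferInstance, ?_, ?_⟩
  · intro h
    have h4 : φ g = 1 := h
    have h5 : f (((g : GL3 R) : Matrix (Fin 3) (Fin 3) R) i j) =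
        (1 : Matrix (Fin 3) (Fin 3) F) i j :=
      congrArg (fun A : GL3 F => (A : Matrix (Fin 3) (Fin 3) F) i j) h4
    refine hf ?_
    rw [map_sub, h5, Matrix.one_apply, Matrix.one_apply]
    split_ifs <;> simp
  · have : Finite (Matrix (Fin 3) (Fin 3) F) := inferInstance
    exact Finite.of_injective _ (QuotientGroup.kerLift_injective φ)

end Pool.Agent.Q322.RF
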