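import Mathlib

/-! # A residually finite ring `R` with an element `x` such that `R / x = ℚ` -/

namespace Pool.Agent.Q322.RF

open Polynomial

/-- a prime above a bound -/
noncomputable def np (N : ℕ) : ℕ := Classical.choose (Nat.exists_infinite_primes N)

theorem le_np (N : ℕ) : N ≤ np N := (Classical.choose_spec (Nat.exists_infinite_primes N)).1

theorem np_prime (N : ℕ) : (np N).Prime := (Classical.choose_spec (Nat.exists_infinite_primes N)).2

/-- the exponents -/
noncomputable def M : ℕ → ℕ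
  | 0 => 1
  | j + 1 => M j * (np ((j + 1) * M j + j + 3) - 1)

/-- the primes -/
noncomputable def qq (j : ℕ) : ℕ := np ((j + 1) * M j + j + 3)

theorem le_qq (j : ℕ) : (j + 1) * M j + j + 3 ≤ qq j := le_np _

theorem qq_prime (j : ℕ) : (qq j).Prime := np_prime _

theorem M_succ (j : ℕ) : M (j + 1) = M j * (qq j - 1) := rfl

theorem M_pos (j : ℕ) : 0 < M j := by
  induction j with
  | zero => exact Nat.one_pos
  | succ j ih =>
    rw [M_succ]
    have := (qq_prime j).two_le
    exact Nat.mul_pos ih (by omega)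

theorem M_dvd {i j : ℕ} (h : i ≤ j) : M i ∣ M j := by
  induction j, h using Nat.le_induction with
  | base => exact dvd_rfl
  | succ j _ ih => exact ih.trans (by rw [M_succ]; exact dvd_mul_right _ _)

theorem sub_dvd {i j : ℕ} (h : j < i) : qq j - 1 ∣ M i :=
  (by rw [M_succ]; exact dvd_mul_left _ _ : qq j - 1 ∣ M (j + 1)).trans (M_dvd h)

/-- the polynomials that are inverted -/
noncomputable def s (i : ℕ) : ℤ[X] := C ((i : ℤ) + 1) - C (i : ℤ) * X ^ M i

theorem aeval_s {F : Type*} [CommRing F] (a : F) (i : ℕ) :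
    aeval a (s i) = ((i : F) + 1) - (i : F) * a ^ M i := by
  simp [s]

theorem find_point (f : ℤ[X]) (hf : f ≠ 0) : ∃ (p : ℕ) (_ : Fact p.Prime) (a : ZMod p),
    aeval a f ≠ 0 ∧ ∀ i, aeval a (s i) ≠ 0 := by
  set j := f.natDegree + f.leadingCoeff.natAbs with hj
  have hp := qq_prime j
  have hfact : Fact (qq j).Prime := ⟨hp⟩
  have hbig := le_qq j
  set p := qq j with hpj
  let φ := algebraMap ℤ (ZMod p)
  have hev : ∀ (a : ZMod p) (g : ℤ[X]), (g.map φ).eval a = aeval a g := fun a g => by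
    rw [eval_map, aeval_def]
  have hf' : f.map φ ≠ 0 := by
    intro h
    have h1 := congrArg (fun g => g.coeff f.natDegree) h
    simp only [coeff_map, coeff_zero] at h1
    have h2 : ((f.leadingCoeff : ℤ) : ZMod p) = 0 := by
      exact h1
    rw [ZMod.intCast_zmod_eq_zero_iff_dvd] at h2
    have h3 : f.leadingCoeff ≠ 0 := leadingCoeff_ne_zero.2 hf
    have h4 := Int.natAbs_dvd_natAbs.2 h2
    have h5 := Nat.le_of_dvd (Int.natAbs_pos.2 h3) h4
    have h6 : ((p : ℤ)).natAbs = p := Int.natAbs_natCast p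
    omega
  have hs' : ∀ i, (s i).map φ ≠ 0 := by
    intro i h
    have h1 := congrArg (fun g => g.eval (1 : ZMod p)) h
    simp only [hev, aeval_s, one_pow, mul_one, eval_zero] at h1
    have : (i : ZMod p) + 1 - i = 1 := by ring
    rw [this] at h1
    exact one_ne_zero h1
  have hdeg : ∀ i, ((s i).map φ).natDegree ≤ M i := by
    intro i
    refine natDegree_map_le.trans ?_
    refine (natDegree_sub_le _ _).trans (max_le ?_ ?_)
    · rw [natDegree_C]; exact Nat.zero_le _
    · exact natDegree_C_mul_X_pow_le _ _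
  let g : (ZMod p)[X] := X * f.map φ * ∏ i ∈ Finset.range (j + 1), (s i).map φ
  have hg : g ≠ 0 := by
    refine mul_ne_zero (mul_ne_zero X_ne_zero hf') ?_
    exact Finset.prod_ne_zero_iff.2 fun i _ => hs' i
  have hgd : g.natDegree ≤ 1 + f.natDegree + (j + 1) * M j := by
    refine natDegree_mul_le.trans (add_le_add (natDegree_mul_le.trans (add_le_add ?_ ?_)) ?_)
    · exact natDegree_X_le
    · exact natDegree_map_le
    · refine (natDegree_prod_le _ _).trans ?_
      calc ∑ i ∈ Finset.range (j + 1), ((s i).map φ).natDegree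
          ≤ ∑ _i ∈ Finset.range (j + 1), M j := Finset.sum_le_sum fun i hi =>
            (hdeg i).trans (Nat.le_of_dvd (M_pos j) (M_dvd (by
              have := Finset.mem_range.1 hi; omega)))
        _ = (j + 1) * M j := by rw [Finset.sum_const, Finset.card_range, smul_eq_mul]
  obtain ⟨a, ha⟩ := exists_eval_ne_zero_of_natDegree_lt_card g hg (by
    rw [Cardinal.mk_fintype, ZMod.card]
    exact_mod_cast (by omega : g.natDegree < p))
  have ha1 : a ≠ 0 := by
    intro h; apply ha; simp [g, h]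
  have ha2 : aeval a f ≠ 0 := by
    intro h; apply ha; simp only [g, eval_mul, hev, h]; ring
  refine ⟨p, hfact, a, ha2, fun i => ?_⟩
  rcases Nat.lt_or_ge j i with hij | hij
  · rw [aeval_s]
    obtain ⟨c, hc⟩ := sub_dvd hij
    have h1 : a ^ M i = 1 := by
      rw [hc, pow_mul, ← hpj, ZMod.pow_card_sub_one_eq_one ha1, one_pow]
    rw [h1]
    have : (i : ZMod p) + 1 - i * 1 = 1 := by ring
    rw [this]
    exact one_ne_zero
  · intro h
    apply ha
    simp only [g, eval_mul, eval_prod, hev]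
    rw [Finset.prod_eq_zero (Finset.mem_range.2 (Nat.lt_succ_of_le hij)) h, mul_zero]

/-- the multiplicative set -/
noncomputable def S : Submonoid ℤ[X] := Submonoid.closure (Set.range s)

theorem S_eval {y : ℤ[X]} (hy : y ∈ S) : y.eval 0 ≠ 0 := by
  induction hy using Submonoid.closure_induction with
  | mem y hy =>
    obtain ⟨i, rfl⟩ := hy
    have h : (s i).eval 0 = (i : ℤ) + 1 := by
      have := (M_pos i).ne'
      simp [s, this]
    rw [h]; omega
  | one => simp
  | mul a b _ _ ha hb => rw [eval_mul]; exact mul_ne_zero ha hb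

theorem S_le : S ≤ nonZeroDivisors ℤ[X] := by
  intro y hy
  refine mem_nonZeroDivisors_of_ne_zero ?_
  rintro rfl
  exact S_eval hy (by simp)

/-- the ring -/
abbrev Rg : Type := Localization S

/-- the element -/
noncomputable def xx : Rg := algebraMap ℤ[X] Rg X

theorem Rg_div (d : ℕ) (hd : 0 < d) : ∃ u v : Rg, 1 = (d : Rg) * u + xx * v := by
  obtain ⟨i, rfl⟩ : ∃ i, d = i + 1 := ⟨d - 1, by omega⟩
  have hu : IsUnit (algebraMap ℤ[X] Rg (s i)) :=
    IsLocalization.map_units (M := S) Rg ⟨s i, Submonoid.subset_closure ⟨i, rfl⟩⟩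
  obtain ⟨w, hw⟩ := hu.exists_right_inv
  obtain ⟨m, hm⟩ : ∃ m, M i = m + 1 := ⟨M i - 1, by have := M_pos i; omega⟩
  refine ⟨w, -((i : Rg) * xx ^ m * w), ?_⟩
  have h1 : algebraMap ℤ[X] Rg (s i) = ((i + 1 : ℕ) : Rg) - (i : Rg) * xx ^ (m + 1) := by
    simp only [s, hm, map_sub, map_mul, map_pow, xx]
    simp
  rw [← hw, h1]
  ring

theorem Rg_sep (r : Rg) (h : ∀ k : ℕ, xx ^ k ∣ r) : r = 0 := by
  have _ : IsDomain Rg := IsLocalization.isDomain_localization S_le
  obtain ⟨f, y, rfl⟩ := IsLocalization.exists_mk'_eq S r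
  have key : ∀ k, X ^ k ∣ f := by
    intro k
    obtain ⟨t, ht⟩ := h k
    obtain ⟨g, z, rfl⟩ := IsLocalization.exists_mk'_eq S t
    have h1 : algebraMap ℤ[X] Rg (f * (z : ℤ[X])) = algebraMap ℤ[X] Rg (X ^ k * (g * (y : ℤ[X]))) := by
      rw [map_mul, map_mul, map_mul, map_pow]
      have e1 := IsLocalization.mk'_spec Rg f y
      have e2 := IsLocalization.mk'_spec Rg g z
      rw [← e1, ← e2, ht]
      show _ = xx ^ k * _
      ring
    have h2 : f * (z : ℤ[X]) = X ^ k * (g * (y : ℤ[X])) := IsLocalization.injective Rg S_le h1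
    have h3 : X ^ k ∣ f * (z : ℤ[X]) := ⟨_, h2⟩
    refine (Polynomial.prime_X (R := ℤ)).pow_dvd_of_dvd_mul_right k ?_ h3
    intro hX
    have := S_eval z.2
    obtain ⟨c, hc⟩ := hX
    rw [hc] at this
    simp at this
  have hf : f = 0 := by
    by_contra hne
    have h1 := Polynomial.natDegree_le_of_dvd (key (f.natDegree + 1)) hne
    rw [natDegree_X_pow] at h1
    omega
  rw [hf, IsLocalization.mk'_zero]

theorem Rg_fin (r : Rg) (hr : r ≠ 0) : ∃ (F : Type) (_ : CommRing F) (_ : Finite F)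
    (f : Rg →+* F), f r ≠ 0 := by
  obtain ⟨f, y, rfl⟩ := IsLocalization.exists_mk'_eq S r
  have hf : f ≠ 0 := by
    rintro rfl
    exact hr (IsLocalization.mk'_zero _)
  obtain ⟨p, hp, a, ha, hs⟩ := find_point f hf
  let e : ℤ[X] →+* ZMod p := (aeval a : ℤ[X] →ₐ[ℤ] ZMod p).toRingHom
  have he : ∀ y : S, IsUnit (e y) := by
    rintro ⟨y, hy⟩
    have : S ≤ (IsUnit.submonoid (ZMod p)).comap e := by
      refine Submonoid.closure_le.2 ?_
      rintro _ ⟨i, rfl⟩
      show IsUnit (aeval a (s i))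
      exact (hs i).isUnit
    exact this hy
  refine ⟨ZMod p, inferInstance, inferInstance, IsLocalization.lift he, ?_⟩
  intro h0
  rw [IsLocalization.lift_mk'_spec, mul_zero] at h0
  exact ha h0

end Pool.Agent.Q322.RF
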